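import Pool.Agent.N329.SD.Stm

/-!
# Existence of generic sequences (project SD of helper329, part GEN by helper371)
-/

set_option autoImplicit false

namespace Pool.Agent.N371.SD

open Pool.Agent.N329.SD

theorem dl_el (s : List ℕ) : dl (el s) = s := Denumerable.ofNat_encode s

theorem el_dl (n : ℕ) : el (dl n) = n := Denumerable.encode_ofNat n

theorem mem_OL (a b : ℕ) : Nat.pair a b ∈ OL ↔ dl a <+: dl b := by
  unfold OL
  rw [Set.mem_ofPred_eq, Nat.unpair_pair]

theorem pre_succ (x : ℕ → ℕ) (k : ℕ) : pre x (k + 1) = pre x k ++ [x k] := by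
  unfold pre
  rw [List.range_succ, List.map_append]
  rfl

/-- one step of the construction -/
theorem step (D : Set ℕ) (s : List ℕ) : ∃ t : List ℕ, s <+: t ∧ s.length < t.length ∧
    ((∀ p, ∃ q ∈ D, Nat.pair p q ∈ OL) → el t ∈ D) := by
  by_cases h : ∀ p, ∃ q ∈ D, Nat.pair p q ∈ OL
  · obtain ⟨q, hq, hq2⟩ := h (el (s ++ [0]))
    rw [mem_OL, dl_el] at hq2
    refine ⟨dl q, (List.prefix_append s [0]).trans hq2, ?_, fun _ => ?_⟩
    · have := hq2.length_le
      rw [List.length_append, List.length_singleton] at this
      omega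
    · rwa [el_dl]
  · refine ⟨s ++ [0], List.prefix_append s [0], ?_, fun h' => absurd h' h⟩
    rw [List.length_append, List.length_singleton]
    omega

theorem gen : S_GEN := by
  intro C hC
  by_cases hne : {S | C S}.Nonempty
  · obtain ⟨f, hf⟩ := hC.exists_eq_range hne
    choose nx hnx1 hnx2 hnx3 using fun n : ℕ => step (f n)
    let p : ℕ → List ℕ := fun n => Nat.rec [] (fun n s => nx n s) n
    have hps : ∀ n, p (n + 1) = nx n (p n) := fun n => rfl
    have hpm : ∀ n m, n ≤ m → p n <+: p m := by
      intro n m h
      induction m, h using Nat.le_induction with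
      | base => exact List.prefix_refl _
      | succ m _ ih =>
        rw [hps]
        exact ih.trans (hnx1 m (p m))
    have hlen : ∀ n, n ≤ (p n).length := by
      intro n
      induction n with
      | zero => exact Nat.zero_le _
      | succ n ih =>
        rw [hps]
        have := hnx2 n (p n)
        omega
    let x : ℕ → ℕ := fun i => (p (i + 1)).getD i 0
    have hpx : ∀ n, pre x (p n).length = p n := by
      intro n
      apply List.ext_getElem
      · simp [pre]
      · intro i h1 h2
        have h3 : i < (p (i + 1)).length := hlen (i + 1)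
        have h4 : (pre x (p n).length)[i] = x i := by simp [pre]
        have h5 : x i = (p (i + 1))[i] := by
          change (p (i + 1)).getD i 0 = _
          rw [List.getD_eq_getElem _ _ h3]
        rw [h4, h5]
        have h6 := (hpm (i + 1) (max (i + 1) n) (le_max_left _ _)).getElem h3
        have h7 := (hpm n (max (i + 1) n) (le_max_right _ _)).getElem h2
        rw [h6, h7]
    refine ⟨x, fun k => ?_, fun Δ hΔ hd => ?_⟩
    · unfold Gx
      rw [mem_OL, dl_el, dl_el, pre_succ]
      exact List.prefix_append _ _
    · have h1 : Δ ∈ Set.range f := by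
        rw [← hf]
        exact hΔ
      obtain ⟨n, rfl⟩ := h1
      refine ⟨(p (n + 1)).length, ?_⟩
      have h2 : Gx x (p (n + 1)).length = el (p (n + 1)) := congrArg el (hpx (n + 1))
      rw [h2]
      exact hnx3 n (p n) hd
  · refine ⟨0, fun k => ?_, fun Δ hΔ _ => absurd ⟨Δ, hΔ⟩ hne⟩
    unfold Gx
    rw [mem_OL, dl_el, dl_el, pre_succ]
    exact List.prefix_append _ _

end Pool.Agent.N371.SD
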